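import Mathlib

set_option autoImplicit false

open Set Topology Cardinal

namespace Pool.Agent.Results.MP_99bf3a_gt.NotKSpace

/-- The index set, of cardinality `2^𝔠`. -/
abbrev I : Type := Set ℝ

/-- Support of a point of the Cantor cube. -/
def supp (x : I → Bool) : Set I := {i | x i = true}

/-- The points of countable support together with the constant point `true`. -/
def XS : Set (I → Bool) := {x | (supp x).Countable ∨ x = fun _ => true}

lemma isClosed_sub (A : Set I) : IsClosed {x : I → Bool | supp x ⊆ A} := by
  have : {x : I → Bool | supp x ⊆ A} = ⋂ i ∈ Aᶜ, {x | x i = false} := by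
    ext x
    simp only [supp, mem_setOf_eq, mem_iInter, subset_def, mem_compl_iff]
    constructor
    · intro h i hi
      by_contra hx
      exact hi (h i (by simpa using hx))
    · intro h i hi
      by_contra hA
      have := h i hA
      rw [hi] at this
      exact absurd this (by simp)
  rw [this]
  refine isClosed_biInter fun i _ => ?_
  exact isClosed_eq (continuous_apply i) continuous_const

lemma isClosed_sup (A : Set I) : IsClosed {x : I → Bool | A ⊆ supp x} := by
  have : {x : I → Bool | A ⊆ supp x} = ⋂ i ∈ A, {x | x i = true} := by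
    ext x
    simp [supp, subset_def]
  rw [this]
  refine isClosed_biInter fun i _ => ?_
  exact isClosed_eq (continuous_apply i) continuous_const

lemma mk_I : #I = 2 ^ 𝔠 := by
  simp [I, Cardinal.mk_real]

/-- every sequence lies in a compact subset -/
lemma omega_bounded (u : ℕ → XS) : ∃ K : Set XS, IsCompact K ∧ ∀ n, u n ∈ K := by
  classical
  set A : Set I := ⋃ n, if (supp (u n).1).Countable then supp (u n).1 else ∅ with hA
  have hAc : A.Countable := by
    refine countable_iUnion fun n => ?_
    split_ifs with h
    · exact h
    · exact countable_empty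
  set K0 : Set (I → Bool) := {x | supp x ⊆ A} ∪ {fun _ => true} with hK0
  have hK0c : IsCompact K0 := ((isClosed_sub A).union isClosed_singleton).isCompact
  have hK0X : K0 ⊆ XS := by
    rintro x (hx | hx)
    · exact Or.inl (hAc.mono hx)
    · exact Or.inr hx
  refine ⟨Subtype.val ⁻¹' K0, ?_, fun n => ?_⟩
  · rw [Subtype.isCompact_iff]
    rw [Subtype.image_preimage_coe, inter_eq_right.2 hK0X]
    exact hK0c
  · rcases (u n).2 with h | h
    · left
      intro i hi
      refine mem_iUnion.2 ⟨n, ?_⟩
      rw [if_pos h]
      exact hi
    · right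
      exact h

/-- the top point is isolated in every compact subset -/
lemma isolated (K : Set (I → Bool)) (hK : IsCompact K) (hKX : K ⊆ XS) :
    ∃ F : Finset I, ∀ x ∈ K, (↑F : Set I) ⊆ supp x → x = fun _ => true := by
  classical
  by_contra hcon
  push Not at hcon
  choose y hyK hyF hyne using hcon
  have hyc : ∀ F, (supp (y F)).Countable := fun F =>
    (hKX (hyK F)).resolve_right (hyne F)
  let e : ℝ → I := fun r => {r}
  have he : Function.Injective e := fun a b h => by
    simpa [e] using h
  let J' : Set I := ⋃ G : Finset ℝ, supp (y (G.image e))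
  have hJ' : #J' ≤ 𝔠 := by
    refine (Cardinal.mk_iUnion_le _).trans ?_
    have h1 : #(Finset ℝ) = 𝔠 := by
      rw [Cardinal.mk_finset_of_infinite, Cardinal.mk_real]
    have h2 : (⨆ G : Finset ℝ, #(supp (y (G.image e)))) ≤ ℵ₀ :=
      ciSup_le' fun G => (hyc _).le_aleph0
    rw [h1]
    calc 𝔠 * (⨆ G : Finset ℝ, #(supp (y (G.image e)))) ≤ 𝔠 * ℵ₀ := by gcongr
      _ = 𝔠 := by simp
  let C : Finset ℝ → Set (I → Bool) := fun G =>
    K ∩ ({x | supp x ⊆ J'} ∩ {x | (↑(G.image e) : Set I) ⊆ supp x})
  have hCc : ∀ G, IsClosed (C G) := fun G =>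
    hK.isClosed.inter ((isClosed_sub _).inter (isClosed_sup _))
  have hCne : ∀ G, (C G).Nonempty := fun G =>
    ⟨y (G.image e), hyK _, subset_iUnion (fun G : Finset ℝ => supp (y (G.image e))) G, hyF _⟩
  have hdir : Directed (· ⊇ ·) C := by
    intro G H
    refine ⟨G ∪ H, ?_, ?_⟩
    · rintro x ⟨h1, h2, h3⟩
      refine ⟨h1, h2, ?_⟩
      intro i hi
      exact h3 (Finset.image_subset_image Finset.subset_union_left hi)
    · rintro x ⟨h1, h2, h3⟩
      refine ⟨h1, h2, ?_⟩
      intro i hi
      exact h3 (Finset.image_subset_image Finset.subset_union_right hi)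
  obtain ⟨x, hx⟩ := IsCompact.nonempty_iInter_of_directed_nonempty_isCompact_isClosed C hdir hCne
    (fun G => (hCc G).isCompact) hCc
  rw [mem_iInter] at hx
  have hxK : x ∈ K := (hx ∅).1
  have hxJ : supp x ⊆ J' := (hx ∅).2.1
  have hxe : range e ⊆ supp x := by
    rintro _ ⟨r, rfl⟩
    exact (hx {r}).2.2 (by simp)
  rcases hKX hxK with h | h
  · have := (h.mono hxe)
    have h2 : (range e).Countable := this
    rw [← image_univ] at h2
    have h3 : (Set.univ : Set ℝ).Countable := countable_of_injective_of_countable_image he.injOn h2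
    exact Cardinal.not_countable_real h3
  · have h1 : supp x = Set.univ := by
      rw [h]; ext i; simp [supp]
    have h2 : #I ≤ 𝔠 := by
      have := (Cardinal.mk_le_mk_of_subset hxJ).trans hJ'
      rwa [h1, Cardinal.mk_univ] at this
    rw [mk_I] at h2
    exact absurd h2 (not_le.2 (Cardinal.cantor _))

/-- There is a Tychonoff space `X` in which every compact-finite indexed family of closed sets
(indeed of arbitrary sets) is locally finite, so that `X` contains no `Cld`-fan, and which is not a `k`-space. -/
theorem result :
    ∃ (X : Type) (_ : TopologicalSpace X), T35Space X ∧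
      (∀ (ι : Type) (F : ι → Set X),
        (∀ K : Set X, IsCompact K → {a | (F a ∩ K).Nonempty}.Finite) → LocallyFinite F) ∧
      ¬ (∀ C : Set X, (∀ K : Set X, IsCompact K → IsClosed ((Subtype.val : K → X) ⁻¹' C)) →
          IsClosed C) := by
  classical
  refine ⟨XS, inferInstance, inferInstance, ?_, ?_⟩
  · intro ι F hF
    have hfin : {a | (F a).Nonempty}.Finite := by
      by_contra hinf
      have hinf' : {a | (F a).Nonempty}.Infinite := hinf
      let g := hinf'.natEmbedding
      choose u hu using fun n => (g n).2
      obtain ⟨K, hK, huK⟩ := omega_bounded u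
      have h1 := hF K hK
      refine (infinite_of_injective_forall_mem (f := fun n => (g n).1) ?_ ?_) h1
      · intro a b hab
        exact g.injective (Subtype.ext hab)
      · intro n
        exact ⟨u n, hu n, huK n⟩
    intro x
    refine ⟨Set.univ, Filter.univ_mem, hfin.subset ?_⟩
    rintro a ⟨z, hz, -⟩
    exact ⟨z, hz⟩
  · intro h
    let p : XS := ⟨fun _ => true, Or.inr rfl⟩
    have hcl : IsClosed ({p}ᶜ : Set XS) := by
      refine h _ fun K hK => ?_
      obtain ⟨F, hF⟩ := isolated (Subtype.val '' K) (hK.image continuous_subtype_val)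
        (by rintro _ ⟨z, -, rfl⟩; exact z.2)
      have : (Subtype.val : K → XS) ⁻¹' ({p}ᶜ) = ⋃ i ∈ F, {z : K | z.1.1 i = false} := by
        ext z
        simp only [mem_preimage, mem_compl_iff, mem_singleton_iff, mem_iUnion, mem_setOf_eq]
        constructor
        · intro hz
          by_contra hc
          push Not at hc
          apply hz
          apply Subtype.ext
          refine hF _ ⟨z.1, z.2, rfl⟩ fun i hi => ?_
          have := hc i hi
          simpa [supp] using this
        · rintro ⟨i, -, hi⟩ hz
          rw [hz] at hi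
          simp [p] at hi
      rw [this]
      refine F.finite_toSet.isClosed_biUnion fun i _ => ?_
      exact isClosed_eq ((continuous_apply i).comp
        (continuous_subtype_val.comp continuous_subtype_val)) continuous_const
    have hop : IsOpen ({p} : Set XS) := isClosed_compl_iff.1 hcl
    obtain ⟨U, hU, hUp⟩ := isOpen_induced_iff.1 hop
    have hpU : (fun _ : I => true) ∈ U := by
      have : p ∈ Subtype.val ⁻¹' U := by rw [hUp]; rfl
      exact this
    obtain ⟨F, v, hv, hFU⟩ := isOpen_pi_iff.1 hU _ hpU
    let q : I → Bool := fun i => decide (i ∈ F)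
    have hq : q ∈ XS := Or.inl (by
      have : supp q = ↑F := by ext i; simp [supp, q]
      rw [this]; exact F.countable_toSet)
    have hqU : q ∈ U := hFU fun i hi => by
      have : q i = true := by simpa [q] using hi
      rw [this]; exact (hv i hi).2
    have : (⟨q, hq⟩ : XS) ∈ Subtype.val ⁻¹' U := hqU
    rw [hUp] at this
    have h1 : q = fun _ => true := congrArg Subtype.val this
    obtain ⟨i, hi⟩ := Infinite.exists_notMem_finset F
    have := congrFun h1 i
    simp [q, hi] at this

end Pool.Agent.Results.MP_99bf3a_gt.NotKSpace
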